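import Pool.Agent.H.MP_ad013a_pr.h63.Sound
import Pool.Agent.H.MP_ad013a_pr.h63.Symm
import Pool.Agent.H.MP_ad013a_pr.h63.Flat
import Pool.Agent.H.MP_ad013a_pr.h63w.Top
import Pool.Agent.H.MP_ad013a_pr.h63s.Q1.F
import Pool.Agent.H.MP_ad013a_pr.h63s.Q2.F
import Pool.Agent.H.MP_ad013a_pr.h63s.Q3.F
import Pool.Agent.H.MP_ad013a_pr.h63s.Q4.F
import Pool.Agent.H.MP_ad013a_pr.h63s.Q5.F
import Pool.Agent.H.MP_ad013a_pr.h63s.Q6.F
import Pool.Agent.H.MP_ad013a_pr.h63s.Q7.F
import Pool.Agent.H.MP_ad013a_pr.h63s.Q8.F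
import Pool.Agent.H.MP_ad013a_pr.h63s.Q9.F
import Pool.Agent.H.MP_ad013a_pr.h63s.Q10.F
import Pool.Agent.H.MP_ad013a_pr.h63s.Q11.F
import Pool.Agent.H.MP_ad013a_pr.h63s.Q12.F
import Pool.Agent.H.MP_ad013a_pr.h63s.Q13.F
import Pool.Agent.H.MP_ad013a_pr.h63s.Q14.F
import Pool.Agent.H.MP_ad013a_pr.h63s.Q15.F
import Pool.Agent.H.MP_ad013a_pr.h63s.Q16.F
import Pool.Agent.H.MP_ad013a_pr.h63s.Q17.F
import Pool.Agent.H.MP_ad013a_pr.h63s.Q18.F
import Pool.Agent.H.MP_ad013a_pr.h63s.Q19.F
import Pool.Agent.H.MP_ad013a_pr.h63s.Q20.F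

/-!
# A lower bound for the constant that holds for every letter distribution
-/

namespace Pool.Agent.ad013a.AMT

open Filter Topology

theorem seg1 {p C : ℝ} (h0 : 5000 / 10000 ≤ p) (h1 : p ≤ 5050 / 10000)
    (hC : Tendsto (fun n : ℕ => EL p n / n) atTop (𝓝 C)) : 0.7874 < C := by
  have hh : ∀ i, chkE false 10000 131072 51605 5000 5050 AM1.g (AM1.g i) = true := by
    intro i
    rw [← chkF_eq]
    exact AM1.all_ok i
  have := lim_ge_of_chk (by norm_num) (by norm_num) (by norm_num) (by norm_num) (by norm_num)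
    hh AM1.start_ok (p := p) (by exact_mod_cast h0) (by exact_mod_cast h1)
    (by simp) hC
  norm_num at this
  linarith

theorem seg2 {p C : ℝ} (h0 : 5050 / 10000 ≤ p) (h1 : p ≤ 5117 / 10000)
    (hC : Tendsto (fun n : ℕ => EL p n / n) atTop (𝓝 C)) : 0.7874 < C := by
  have hh : ∀ i, chkE false 10000 131072 51606 5050 5117 AM2.g (AM2.g i) = true := by
    intro i
    rw [← chkF_eq]
    exact AM2.all_ok i
  have := lim_ge_of_chk (by norm_num) (by norm_num) (by norm_num) (by norm_num) (by norm_num)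
    hh AM2.start_ok (p := p) (by exact_mod_cast h0) (by exact_mod_cast h1)
    (by simp) hC
  norm_num at this
  linarith

theorem seg3 {p C : ℝ} (h0 : 5117 / 10000 ≤ p) (h1 : p ≤ 5184 / 10000)
    (hC : Tendsto (fun n : ℕ => EL p n / n) atTop (𝓝 C)) : 0.7874 < C := by
  have hh : ∀ i, chkE false 10000 131072 51606 5117 5184 AM3.g (AM3.g i) = true := by
    intro i
    rw [← chkF_eq]
    exact AM3.all_ok i
  have := lim_ge_of_chk (by norm_num) (by norm_num) (by norm_num) (by norm_num) (by norm_num)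
    hh AM3.start_ok (p := p) (by exact_mod_cast h0) (by exact_mod_cast h1)
    (by simp) hC
  norm_num at this
  linarith

theorem seg4 {p C : ℝ} (h0 : 5184 / 10000 ≤ p) (h1 : p ≤ 5251 / 10000)
    (hC : Tendsto (fun n : ℕ => EL p n / n) atTop (𝓝 C)) : 0.7874 < C := by
  have hh : ∀ i, chkE false 10000 131072 51605 5184 5251 AM4.g (AM4.g i) = true := by
    intro i
    rw [← chkF_eq]
    exact AM4.all_ok i
  have := lim_ge_of_chk (by norm_num) (by norm_num) (by norm_num) (by norm_num) (by norm_num)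
    hh AM4.start_ok (p := p) (by exact_mod_cast h0) (by exact_mod_cast h1)
    (by simp) hC
  norm_num at this
  linarith

theorem seg5 {p C : ℝ} (h0 : 5251 / 10000 ≤ p) (h1 : p ≤ 5341 / 10000)
    (hC : Tendsto (fun n : ℕ => EL p n / n) atTop (𝓝 C)) : 0.7874 < C := by
  have hh : ∀ i, chkE false 10000 131072 51604 5251 5341 AM5.g (AM5.g i) = true := by
    intro i
    rw [← chkF_eq]
    exact AM5.all_ok i
  have := lim_ge_of_chk (by norm_num) (by norm_num) (by norm_num) (by norm_num) (by norm_num)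
    hh AM5.start_ok (p := p) (by exact_mod_cast h0) (by exact_mod_cast h1)
    (by simp) hC
  norm_num at this
  linarith

theorem seg6 {p C : ℝ} (h0 : 5341 / 10000 ≤ p) (h1 : p ≤ 5400 / 10000)
    (hC : Tendsto (fun n : ℕ => EL p n / n) atTop (𝓝 C)) : 0.7874 < C := by
  have hh : ∀ i, chkE false 10000 131072 51604 5341 5400 AM6.g (AM6.g i) = true := by
    intro i
    rw [← chkF_eq]
    exact AM6.all_ok i
  have := lim_ge_of_chk (by norm_num) (by norm_num) (by norm_num) (by norm_num) (by norm_num)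
    hh AM6.start_ok (p := p) (by exact_mod_cast h0) (by exact_mod_cast h1)
    (by simp) hC
  norm_num at this
  linarith

theorem seg7 {p C : ℝ} (h0 : 5400 / 10000 ≤ p) (h1 : p ≤ 5500 / 10000)
    (hC : Tendsto (fun n : ℕ => EL p n / n) atTop (𝓝 C)) : 0.7874 < C := by
  have hh : ∀ i, chkE false 10000 131072 51607 5400 5500 AM7.g (AM7.g i) = true := by
    intro i
    rw [← chkF_eq]
    exact AM7.all_ok i
  have := lim_ge_of_chk (by norm_num) (by norm_num) (by norm_num) (by norm_num) (by norm_num)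
    hh AM7.start_ok (p := p) (by exact_mod_cast h0) (by exact_mod_cast h1)
    (by simp) hC
  norm_num at this
  linarith

theorem seg8 {p C : ℝ} (h0 : 5500 / 10000 ≤ p) (h1 : p ≤ 5600 / 10000)
    (hC : Tendsto (fun n : ℕ => EL p n / n) atTop (𝓝 C)) : 0.7874 < C := by
  have hh : ∀ i, chkE false 10000 131072 51605 5500 5600 AM8.g (AM8.g i) = true := by
    intro i
    rw [← chkF_eq]
    exact AM8.all_ok i
  have := lim_ge_of_chk (by norm_num) (by norm_num) (by norm_num) (by norm_num) (by norm_num)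
    hh AM8.start_ok (p := p) (by exact_mod_cast h0) (by exact_mod_cast h1)
    (by simp) hC
  norm_num at this
  linarith

theorem seg9 {p C : ℝ} (h0 : 5600 / 10000 ≤ p) (h1 : p ≤ 5700 / 10000)
    (hC : Tendsto (fun n : ℕ => EL p n / n) atTop (𝓝 C)) : 0.7874 < C := by
  have hh : ∀ i, chkE false 10000 131072 51604 5600 5700 AM9.g (AM9.g i) = true := by
    intro i
    rw [← chkF_eq]
    exact AM9.all_ok i
  have := lim_ge_of_chk (by norm_num) (by norm_num) (by norm_num) (by norm_num) (by norm_num)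
    hh AM9.start_ok (p := p) (by exact_mod_cast h0) (by exact_mod_cast h1)
    (by simp) hC
  norm_num at this
  linarith

theorem seg10 {p C : ℝ} (h0 : 5700 / 10000 ≤ p) (h1 : p ≤ 5835 / 10000)
    (hC : Tendsto (fun n : ℕ => EL p n / n) atTop (𝓝 C)) : 0.7874 < C := by
  have hh : ∀ i, chkE false 10000 131072 51611 5700 5835 AM10.g (AM10.g i) = true := by
    intro i
    rw [← chkF_eq]
    exact AM10.all_ok i
  have := lim_ge_of_chk (by norm_num) (by norm_num) (by norm_num) (by norm_num) (by norm_num)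
    hh AM10.start_ok (p := p) (by exact_mod_cast h0) (by exact_mod_cast h1)
    (by simp) hC
  norm_num at this
  linarith

theorem seg11 {p C : ℝ} (h0 : 5835 / 10000 ≤ p) (h1 : p ≤ 5970 / 10000)
    (hC : Tendsto (fun n : ℕ => EL p n / n) atTop (𝓝 C)) : 0.7874 < C := by
  have hh : ∀ i, chkE false 10000 131072 51607 5835 5970 AM11.g (AM11.g i) = true := by
    intro i
    rw [← chkF_eq]
    exact AM11.all_ok i
  have := lim_ge_of_chk (by norm_num) (by norm_num) (by norm_num) (by norm_num) (by norm_num)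
    hh AM11.start_ok (p := p) (by exact_mod_cast h0) (by exact_mod_cast h1)
    (by simp) hC
  norm_num at this
  linarith

theorem seg12 {p C : ℝ} (h0 : 5970 / 10000 ≤ p) (h1 : p ≤ 6152 / 10000)
    (hC : Tendsto (fun n : ℕ => EL p n / n) atTop (𝓝 C)) : 0.7874 < C := by
  have hh : ∀ i, chkE false 10000 131072 51605 5970 6152 AM12.g (AM12.g i) = true := by
    intro i
    rw [← chkF_eq]
    exact AM12.all_ok i
  have := lim_ge_of_chk (by norm_num) (by norm_num) (by norm_num) (by norm_num) (by norm_num)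
    hh AM12.start_ok (p := p) (by exact_mod_cast h0) (by exact_mod_cast h1)
    (by simp) hC
  norm_num at this
  linarith

theorem seg13 {p C : ℝ} (h0 : 6152 / 10000 ≤ p) (h1 : p ≤ 6334 / 10000)
    (hC : Tendsto (fun n : ℕ => EL p n / n) atTop (𝓝 C)) : 0.7874 < C := by
  have hh : ∀ i, chkE false 10000 131072 51607 6152 6334 AM13.g (AM13.g i) = true := by
    intro i
    rw [← chkF_eq]
    exact AM13.all_ok i
  have := lim_ge_of_chk (by norm_num) (by norm_num) (by norm_num) (by norm_num) (by norm_num)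
    hh AM13.start_ok (p := p) (by exact_mod_cast h0) (by exact_mod_cast h1)
    (by simp) hC
  norm_num at this
  linarith

theorem seg14 {p C : ℝ} (h0 : 6334 / 10000 ≤ p) (h1 : p ≤ 6516 / 10000)
    (hC : Tendsto (fun n : ℕ => EL p n / n) atTop (𝓝 C)) : 0.7874 < C := by
  have hh : ∀ i, chkE false 10000 131072 51608 6334 6516 AM14.g (AM14.g i) = true := by
    intro i
    rw [← chkF_eq]
    exact AM14.all_ok i
  have := lim_ge_of_chk (by norm_num) (by norm_num) (by norm_num) (by norm_num) (by norm_num)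
    hh AM14.start_ok (p := p) (by exact_mod_cast h0) (by exact_mod_cast h1)
    (by simp) hC
  norm_num at this
  linarith

theorem seg15 {p C : ℝ} (h0 : 6516 / 10000 ≤ p) (h1 : p ≤ 6761 / 10000)
    (hC : Tendsto (fun n : ℕ => EL p n / n) atTop (𝓝 C)) : 0.7874 < C := by
  have hh : ∀ i, chkE false 10000 131072 51931 6516 6761 AM15.g (AM15.g i) = true := by
    intro i
    rw [← chkF_eq]
    exact AM15.all_ok i
  have := lim_ge_of_chk (by norm_num) (by norm_num) (by norm_num) (by norm_num) (by norm_num)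
    hh AM15.start_ok (p := p) (by exact_mod_cast h0) (by exact_mod_cast h1)
    (by simp) hC
  norm_num at this
  linarith

theorem seg16 {p C : ℝ} (h0 : 6761 / 10000 ≤ p) (h1 : p ≤ 7091 / 10000)
    (hC : Tendsto (fun n : ℕ => EL p n / n) atTop (𝓝 C)) : 0.7874 < C := by
  have hh : ∀ i, chkE false 10000 131072 51669 6761 7091 AM16.g (AM16.g i) = true := by
    intro i
    rw [← chkF_eq]
    exact AM16.all_ok i
  have := lim_ge_of_chk (by norm_num) (by norm_num) (by norm_num) (by norm_num) (by norm_num)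
    hh AM16.start_ok (p := p) (by exact_mod_cast h0) (by exact_mod_cast h1)
    (by simp) hC
  norm_num at this
  linarith

theorem seg17 {p C : ℝ} (h0 : 7091 / 10000 ≤ p) (h1 : p ≤ 7536 / 10000)
    (hC : Tendsto (fun n : ℕ => EL p n / n) atTop (𝓝 C)) : 0.7874 < C := by
  have hh : ∀ i, chkE false 10000 131072 52633 7091 7536 AM17.g (AM17.g i) = true := by
    intro i
    rw [← chkF_eq]
    exact AM17.all_ok i
  have := lim_ge_of_chk (by norm_num) (by norm_num) (by norm_num) (by norm_num) (by norm_num)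
    hh AM17.start_ok (p := p) (by exact_mod_cast h0) (by exact_mod_cast h1)
    (by simp) hC
  norm_num at this
  linarith

theorem seg18 {p C : ℝ} (h0 : 7536 / 10000 ≤ p) (h1 : p ≤ 8136 / 10000)
    (hC : Tendsto (fun n : ℕ => EL p n / n) atTop (𝓝 C)) : 0.7874 < C := by
  have hh : ∀ i, chkE false 10000 131072 53740 7536 8136 AM18.g (AM18.g i) = true := by
    intro i
    rw [← chkF_eq]
    exact AM18.all_ok i
  have := lim_ge_of_chk (by norm_num) (by norm_num) (by norm_num) (by norm_num) (by norm_num)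
    hh AM18.start_ok (p := p) (by exact_mod_cast h0) (by exact_mod_cast h1)
    (by simp) hC
  norm_num at this
  linarith

theorem seg19 {p C : ℝ} (h0 : 8136 / 10000 ≤ p) (h1 : p ≤ 8946 / 10000)
    (hC : Tendsto (fun n : ℕ => EL p n / n) atTop (𝓝 C)) : 0.7874 < C := by
  have hh : ∀ i, chkE false 10000 131072 53320 8136 8946 AM19.g (AM19.g i) = true := by
    intro i
    rw [← chkF_eq]
    exact AM19.all_ok i
  have := lim_ge_of_chk (by norm_num) (by norm_num) (by norm_num) (by norm_num) (by norm_num)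
    hh AM19.start_ok (p := p) (by exact_mod_cast h0) (by exact_mod_cast h1)
    (by simp) hC
  norm_num at this
  linarith

theorem seg20 {p C : ℝ} (h0 : 8946 / 10000 ≤ p) (h1 : p ≤ 10000 / 10000)
    (hC : Tendsto (fun n : ℕ => EL p n / n) atTop (𝓝 C)) : 0.7874 < C := by
  have hh : ∀ i, chkE false 10000 131072 58628 8946 10000 AM20.g (AM20.g i) = true := by
    intro i
    rw [← chkF_eq]
    exact AM20.all_ok i
  have := lim_ge_of_chk (by norm_num) (by norm_num) (by norm_num) (by norm_num) (by norm_num)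
    hh AM20.start_ok (p := p) (by exact_mod_cast h0) (by exact_mod_cast h1)
    (by simp) hC
  norm_num at this
  linarith

theorem all_gt {p C : ℝ} (h0 : 5000 / 10000 ≤ p) (h1 : p ≤ 10000 / 10000)
    (hC : Tendsto (fun n : ℕ => EL p n / n) atTop (𝓝 C)) : 0.7874 < C := by
  rcases le_total p (5050 / 10000) with h | h
  · exact seg1 h0 h hC
  replace h0 := h
  clear h
  rcases le_total p (5117 / 10000) with h | h
  · exact seg2 h0 h hC
  replace h0 := h
  clear h
  rcases le_total p (5184 / 10000) with h | h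
  · exact seg3 h0 h hC
  replace h0 := h
  clear h
  rcases le_total p (5251 / 10000) with h | h
  · exact seg4 h0 h hC
  replace h0 := h
  clear h
  rcases le_total p (5341 / 10000) with h | h
  · exact seg5 h0 h hC
  replace h0 := h
  clear h
  rcases le_total p (5400 / 10000) with h | h
  · exact seg6 h0 h hC
  replace h0 := h
  clear h
  rcases le_total p (5500 / 10000) with h | h
  · exact seg7 h0 h hC
  replace h0 := h
  clear h
  rcases le_total p (5600 / 10000) with h | h
  · exact seg8 h0 h hC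
  replace h0 := h
  clear h
  rcases le_total p (5700 / 10000) with h | h
  · exact seg9 h0 h hC
  replace h0 := h
  clear h
  rcases le_total p (5835 / 10000) with h | h
  · exact seg10 h0 h hC
  replace h0 := h
  clear h
  rcases le_total p (5970 / 10000) with h | h
  · exact seg11 h0 h hC
  replace h0 := h
  clear h
  rcases le_total p (6152 / 10000) with h | h
  · exact seg12 h0 h hC
  replace h0 := h
  clear h
  rcases le_total p (6334 / 10000) with h | h
  · exact seg13 h0 h hC
  replace h0 := h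
  clear h
  rcases le_total p (6516 / 10000) with h | h
  · exact seg14 h0 h hC
  replace h0 := h
  clear h
  rcases le_total p (6761 / 10000) with h | h
  · exact seg15 h0 h hC
  replace h0 := h
  clear h
  rcases le_total p (7091 / 10000) with h | h
  · exact seg16 h0 h hC
  replace h0 := h
  clear h
  rcases le_total p (7536 / 10000) with h | h
  · exact seg17 h0 h hC
  replace h0 := h
  clear h
  rcases le_total p (8136 / 10000) with h | h
  · exact seg18 h0 h hC
  replace h0 := h
  clear h
  rcases le_total p (8946 / 10000) with h | h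
  · exact seg19 h0 h hC
  replace h0 := h
  clear h
  exact seg20 h0 h1 hC

theorem almost_minimal : ∃ C : ℝ, Tendsto (fun n : ℕ => EL (1 / 2) n / n) atTop (𝓝 C) ∧
    ∀ p : ℝ, 0 ≤ p → p ≤ 1 →
      ∃ D : ℝ, Tendsto (fun n : ℕ => EL p n / n) atTop (𝓝 D) ∧ 0.7874 < D ∧
        C < D + 0.033 := by
  obtain ⟨C, hC, hC'⟩ := upperW
  refine ⟨C, hC, ?_⟩
  intro p h0 h1
  obtain ⟨D, hD⟩ := exists_lim h0 h1
  have key : 0.7874 < D := by
    rcases le_total (1 / 2) p with h' | h'
    · exact all_gt (by linarith) (by linarith) hD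
    · have hD' : Tendsto (fun n : ℕ => EL (1 - p) n / n) atTop (𝓝 D) := by
        simpa only [EL_symm] using hD
      exact all_gt (p := 1 - p) (by linarith) (by linarith) hD'
  refine ⟨D, hD, key, ?_⟩
  have h2 : C < 0.8204 := hC'
  linarith

end Pool.Agent.ad013a.AMT
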